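import Mathlib

namespace Pool.Agent.MP_7af562_mp

open Matrix

/-- The Pauli matrix X (rows and columns are indexed by the bit values 0, 1). -/
def pX : Matrix (ZMod 2) (ZMod 2) ℂ := Matrix.of fun x y => if x = y then 0 else 1

/-- The Pauli matrix Y: entry (0,1) is -i, entry (1,0) is i. -/
def pY : Matrix (ZMod 2) (ZMod 2) ℂ :=
  Matrix.of fun x y => if x = y then 0 else if x = 0 then -Complex.I else Complex.I

/-- The Pauli matrix Z. -/
def pZ : Matrix (ZMod 2) (ZMod 2) ℂ :=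
  Matrix.of fun x y => if x = y then (if x = 0 then 1 else -1) else 0

/-- The tensor (Kronecker) product of n single-qubit operators, as a matrix in the
computational basis of n qubits (basis vectors are indexed by bit strings). -/
def tensor {n : ℕ} (A : Fin n → Matrix (ZMod 2) (ZMod 2) ℂ) :
    Matrix (Fin n → ZMod 2) (Fin n → ZMod 2) ℂ :=
  Matrix.of fun x y => ∏ i, A i (x i) (y i)

/-- The operator permuting the n qubits according to the permutation. -/
def permOp {n : ℕ} (π : Equiv.Perm (Fin n)) : Matrix (Fin n → ZMod 2) (Fin n → ZMod 2) ℂ :=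
  Matrix.of fun x y => if y = x ∘ π then 1 else 0

/-- A stabilizer codespace on n qubits: the nonzero space of all vectors fixed by finitely many
signed Pauli strings. -/
def IsStabCode {n : ℕ} (Q : Set ((Fin n → ZMod 2) → ℂ)) : Prop :=
  (∃ ψ ∈ Q, ψ ≠ 0) ∧
  ∃ (m : ℕ) (s : Fin m → ℂ) (g : Fin m → Fin n → Matrix (ZMod 2) (ZMod 2) ℂ),
    (∀ k, s k = 1 ∨ s k = -1) ∧
    (∀ k i, g k i = 1 ∨ g k i = pX ∨ g k i = pY ∨ g k i = pZ) ∧
    Q = {ψ | ∀ k, (s k • tensor (g k)) *ᵥ ψ = ψ}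

/-- A single-qubit Clifford operator: conjugation sends each of X, Y, Z to one of
±X, ±Y, ±Z. -/
def IsClifford (U : Matrix (ZMod 2) (ZMod 2) ℂ) : Prop :=
  ∀ A, A = pX ∨ A = pY ∨ A = pZ →
    ∃ B, (B = pX ∨ B = pY ∨ B = pZ) ∧ (U * A * star U = B ∨ U * A * star U = -B)

/-- Local unitary equivalence, qubit permutations allowed: some operator
(U_1 ⊗ ... ⊗ U_n) P maps Q onto Q'. -/
def LUEquivalent {n : ℕ} (Q Q' : Set ((Fin n → ZMod 2) → ℂ)) : Prop :=
  ∃ (U : Fin n → Matrix (ZMod 2) (ZMod 2) ℂ) (π : Equiv.Perm (Fin n)),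
    (∀ i, U i ∈ Matrix.unitaryGroup (ZMod 2) ℂ) ∧
    (fun ψ => (tensor U * permOp π) *ᵥ ψ) '' Q = Q'

/-- Local Clifford equivalence, qubit permutations allowed: the same with every U_i a
single-qubit Clifford unitary. -/
def LCEquivalent {n : ℕ} (Q Q' : Set ((Fin n → ZMod 2) → ℂ)) : Prop :=
  ∃ (U : Fin n → Matrix (ZMod 2) (ZMod 2) ℂ) (π : Equiv.Perm (Fin n)),
    (∀ i, U i ∈ Matrix.unitaryGroup (ZMod 2) ℂ ∧ IsClifford (U i)) ∧
    (fun ψ => (tensor U * permOp π) *ᵥ ψ) '' Q = Q'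

end Pool.Agent.MP_7af562_mp
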